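import Pool.Agent.H539.VG.Asm2
import Pool.Agent.H539.VG.Three2

/-!
# Mapping visibility graphs by an agent that knows the number of vertices

The vertices `0, ..., n - 1` of a polygon are numbered in counter-clockwise order along the
boundary, and all indices are read modulo `n`. A structure of type `GG n` (file
`Pool.Agent.H539.VG.TG`) is a periodic adjacency relation on `ℤ` which satisfies the two classical
necessary conditions of Ghosh for the visibility graph of a simple polygon:

* `c1`: a line of sight which is not a side is a side of a triangle of lines of sight on each side;
* `c2`: two vertices which do not see each other have a blocking vertex.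

The agent is modelled as in the problem (file `Pool.Agent.H539.VG.Defs`): `nbrs` lists the vertices
seen in counter-clockwise order, `dg` is their number, a `Strategy` maps the list of the former
observations (degree and chosen position) and the present degree to the next position, and `obs`
is the list of the first `t` observations. Two vertices are indistinguishable (`Indist`) if no
sequence of moves leads to different degrees.
-/

namespace Pool.Agent.Results.MP_9f3af0_lc.SmallViewClasses

open H539

theorem unique23 {n : ℕ} (k : ℕ) (hk : 0 < k) (hn : n = 2 * k ∨ n = 3 * k) (G G' : VG n)
    (hw : ∀ i j : ℤ, i % k = j % k → wd G.adj n k i = wd G'.adj n k j) :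
    ∀ s t, G.adj s t ↔ G'.adj s t := by
  have hW : Wd (fun b : Bool => if b then G else G') k := by
    intro x y i j hij
    cases x <;> cases y
    · exact (hw i i rfl).symm.trans (hw i j hij)
    · exact (hw j i hij.symm).symm
    · exact hw i j hij
    · exact (hw i j hij).trans (hw j j rfl).symm
  intro s t
  rcases hn with hn | hn
  · exact two_unique hk hn _ hW true false s t
  · exact three_unique hk hn _ hW true false s t

/-- For every `n ≥ 3` there is a strategy which determines the structure up to rotation after
finitely many steps, for every `n` that is prime or `4`, `6` or `9`, and for every other `n` for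
every structure in which at most three vertices are indistinguishable from the start vertex
(itself included), or all vertices are indistinguishable. -/
theorem result (n : ℕ) (h3 : 3 ≤ n) :
    ∃ S : Strategy, ∀ (G : GG n) (s : ℤ),
      ((n.Prime ∨ n = 4 ∨ n = 6 ∨ n = 9) ∨
        (∀ i : ℤ, Indist G s (s + i) → (n : ℤ) ∣ 2 * i ∨ (n : ℤ) ∣ 3 * i) ∨
        (∀ i : ℤ, Indist G s i)) →
      ∃ t : ℕ, ∀ (G' : GG n) (s' : ℤ), obs S G.adj n s t = obs S G'.adj n s' t →
        ∃ c : ℤ, ∀ i j, G.adj i j ↔ G'.adj (i + c) (j + c) := by
  obtain ⟨S, hS⟩ := asm2 h3 (fun k hk hn G G' hw => unique23 k hk hn G G' hw)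
  refine ⟨S, fun G s h => hS G s ?_⟩
  rcases h with h | h
  · left
    intro k hk
    rcases h with h | h | h | h
    · rcases (Nat.dvd_prime h).1 hk with h1 | h1
      · exact Or.inl h1
      · exact Or.inr (Or.inl h1.symm)
    · subst h
      have := Nat.le_of_dvd (by norm_num) hk
      interval_cases k <;> simp_all
    · subst h
      have := Nat.le_of_dvd (by norm_num) hk
      interval_cases k <;> simp_all
    · subst h
      have := Nat.le_of_dvd (by norm_num) hk
      interval_cases k <;> simp_all
  · right
    exact h

end Pool.Agent.Results.MP_9f3af0_lc.SmallViewClasses
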